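import Mathlib

/-!
# `MP_5fe7ea_an`: a separable refinement of Ky Fan's eigenvalue majorization

For positive semidefinite `A₀, A₁` (size `m`) and `B₀, B₁` (size `n`) the eigenvalue vector of
`A₀ ⊗ B₀ + A₁ ⊗ B₁` is majorized by that of `A₀↓ ⊗ B₀↓ + A₁↓ ⊗ B₁↓`.

Idea: it is enough to bound `∑ max (λ_j - τ) 0` for every real `τ`. Writing both summands through
their level sets reduces this to pairs of projections onto coordinate subspaces of two product
bases, cut out by level sets of the arrays `a_i b_j`; these level sets are lower sets `D`, `D'` of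
`Fin m × Fin n`, and the block of a tensor product `U ⊗ V` with rows in `D` and columns in `D'`
has rank at most the number of elements of `D ∩ D'`, because `U` and `V` are limits of products of
a lower triangular and an upper triangular matrix.
-/

open Matrix Finset Filter Topology
open scoped Kronecker ComplexOrder

namespace Pool.Agent.Results.MP_5fe7ea_an.SeparableKyFan

/-- Every square matrix is a limit of products of a lower and an upper triangular matrix. -/
lemma lu_dense : ∀ (m : ℕ) (A : Matrix (Fin m) (Fin m) ℂ) (ε : ℝ), 0 < ε →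
    ∃ L R : Matrix (Fin m) (Fin m) ℂ, (∀ i j, i < j → L i j = 0) ∧ (∀ i j, j < i → R i j = 0) ∧
      ∀ i j, ‖(L * R) i j - A i j‖ < ε := by
  intro m
  induction m with
  | zero =>
    intro A ε hε
    exact ⟨0, 0, fun i => i.elim0, fun i => i.elim0, fun i => i.elim0⟩
  | succ m ih =>
    intro A ε hε
    obtain ⟨a, ha0, ha⟩ : ∃ a : ℂ, a ≠ 0 ∧ ‖a - A 0 0‖ < ε := by
      by_cases h : A 0 0 = 0
      · refine ⟨((ε / 2 : ℝ) : ℂ), ?_, ?_⟩
        · exact_mod_cast (by positivity : (ε / 2) ≠ 0)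
        · rw [h, sub_zero, Complex.norm_real, Real.norm_of_nonneg (by positivity)]
          linarith
      · exact ⟨A 0 0, h, by simpa using hε⟩
    obtain ⟨L', R', hL, hR, hLR⟩ :=
      ih (fun i j => A i.succ j.succ - A i.succ 0 / a * A 0 j.succ) ε hε
    let L : Matrix (Fin (m+1)) (Fin (m+1)) ℂ := fun i j =>
      Fin.cases (motive := fun _ => ℂ) (Fin.cases (motive := fun _ => ℂ) (1 : ℂ) (fun _ => 0) j)
        (fun i' => Fin.cases (motive := fun _ => ℂ) (A i'.succ 0 / a) (fun j' => L' i' j') j) i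
    let R : Matrix (Fin (m+1)) (Fin (m+1)) ℂ := fun i j =>
      Fin.cases (motive := fun _ => ℂ) (Fin.cases (motive := fun _ => ℂ) a
        (fun j' => A 0 j'.succ) j)
        (fun i' => Fin.cases (motive := fun _ => ℂ) 0 (fun j' => R' i' j') j) i
    have L00 : L 0 0 = 1 := rfl
    have L0s : ∀ j : Fin m, L 0 j.succ = 0 := fun j => rfl
    have Ls0 : ∀ i : Fin m, L i.succ 0 = A i.succ 0 / a := fun j => rfl
    have Lss : ∀ i j : Fin m, L i.succ j.succ = L' i j := fun i j => rfl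
    have R00 : R 0 0 = a := rfl
    have R0s : ∀ j : Fin m, R 0 j.succ = A 0 j.succ := fun j => rfl
    have Rs0 : ∀ i : Fin m, R i.succ 0 = 0 := fun j => rfl
    have Rss : ∀ i j : Fin m, R i.succ j.succ = R' i j := fun i j => rfl
    clear_value L R
    refine ⟨L, R, ?_, ?_, ?_⟩
    · intro i j hij
      induction i using Fin.cases with
      | zero =>
        induction j using Fin.cases with
        | zero => exact absurd hij (lt_irrefl _)
        | succ j => exact L0s j
      | succ i =>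
        induction j using Fin.cases with
        | zero => exact absurd hij (by simp)
        | succ j => rw [Lss]; exact hL _ _ (by simpa using hij)
    · intro i j hij
      induction i using Fin.cases with
      | zero => exact absurd hij (by simp)
      | succ i =>
        induction j using Fin.cases with
        | zero => exact Rs0 i
        | succ j => rw [Rss]; exact hR _ _ (by simpa using hij)
    · intro i j
      rw [Matrix.mul_apply, Fin.sum_univ_succ]
      induction i using Fin.cases with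
      | zero =>
        induction j using Fin.cases with
        | zero => simpa [L00, L0s, R00] using ha
        | succ j => simpa [L00, L0s, R0s] using hε
      | succ i =>
        induction j using Fin.cases with
        | zero => simpa [Ls0, Lss, R00, Rs0, ha0] using hε
        | succ j =>
          have h := hLR i j
          rw [Matrix.mul_apply] at h
          simp only [Ls0, Lss, R0s, Rss]
          convert h using 2
          ring

/-- Triangular factors do not leave a lower set of index pairs. -/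
lemma rank_tri {m n : ℕ} (L R : Matrix (Fin m) (Fin m) ℂ) (L' R' : Matrix (Fin n) (Fin n) ℂ)
    (hL : ∀ i j, i < j → L i j = 0) (hR : ∀ i j, j < i → R i j = 0)
    (hL' : ∀ i j, i < j → L' i j = 0) (hR' : ∀ i j, j < i → R' i j = 0)
    (D D' : Finset (Fin m × Fin n)) (hD : IsLowerSet (D : Set (Fin m × Fin n)))
    (hD' : IsLowerSet (D' : Set (Fin m × Fin n))) :
    (((L * R) ⊗ₖ (L' * R')).submatrix (fun p : D => p.1) (fun p : D' => p.1)).rank
      ≤ (D ∩ D').card := by
  have key : ((L * R) ⊗ₖ (L' * R')).submatrix (fun p : D => p.1) (fun p : D' => p.1) =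
      (L ⊗ₖ L').submatrix (fun p : D => p.1) (fun p : (D ∩ D' : Finset _) => p.1) *
      (R ⊗ₖ R').submatrix (fun p : (D ∩ D' : Finset _) => p.1) (fun p : D' => p.1) := by
    ext ⟨p, hp⟩ ⟨q, hq⟩
    rw [Matrix.mul_kronecker_mul, Matrix.submatrix_apply, Matrix.mul_apply, Matrix.mul_apply]
    simp only [Matrix.submatrix_apply]
    rw [Finset.sum_coe_sort (D ∩ D') (fun r => (L ⊗ₖ L') p r * (R ⊗ₖ R') r q)]
    symm
    apply Finset.sum_subset (Finset.subset_univ _)
    intro r _ hr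
    by_cases h1 : r ∈ D
    · have h2 : r ∉ D' := fun h => hr (Finset.mem_inter.2 ⟨h1, h⟩)
      have h3 : ¬ (r ≤ q) := fun h => h2 (hD' h hq)
      have h4 : (R ⊗ₖ R') r q = 0 := by
        rw [Matrix.kronecker_apply]
        rw [Prod.le_def, not_and_or, not_le, not_le] at h3
        rcases h3 with h3 | h3
        · rw [hR _ _ h3, zero_mul]
        · rw [hR' _ _ h3, mul_zero]
      rw [h4, mul_zero]
    · have h3 : ¬ (r ≤ p) := fun h => h1 (hD h hp)
      have h4 : (L ⊗ₖ L') p r = 0 := by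
        rw [Matrix.kronecker_apply]
        rw [Prod.le_def, not_and_or, not_le, not_le] at h3
        rcases h3 with h3 | h3
        · rw [hL _ _ h3, zero_mul]
        · rw [hL' _ _ h3, mul_zero]
      rw [h4, zero_mul]
  rw [key]
  refine (Matrix.rank_mul_le_left _ _).trans ?_
  refine (Matrix.rank_le_card_width _).trans ?_
  exact (Fintype.card_coe _).le

/-- The rank of a matrix does not go up in a limit. -/
lemma rank_le_of_tendsto {α β : Type*} [Fintype α] [Fintype β] [DecidableEq α] [DecidableEq β]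
    (F : ℕ → Matrix α β ℂ)
    (T : Matrix α β ℂ) (hF : Tendsto F atTop (𝓝 T)) (k : ℕ) (h : ∀ n, (F n).rank ≤ k) :
    T.rank ≤ k := by
  by_contra hc
  push Not at hc
  let φ : Matrix α β ℂ →ₗ[ℂ] ((β → ℂ) →L[ℂ] (α → ℂ)) :=
    (LinearMap.toContinuousLinearMap : ((β → ℂ) →ₗ[ℂ] (α → ℂ)) ≃ₗ[ℂ] _).toLinearMap ∘ₗ
      (Matrix.toLin' : Matrix α β ℂ ≃ₗ[ℂ] _).toLinearMap
  have hφ : Continuous φ := LinearMap.continuous_of_finiteDimensional φ
  have hr : ∀ M : Matrix α β ℂ, ((φ M : (β → ℂ) →L[ℂ] (α → ℂ)) : (β → ℂ) →ₗ[ℂ] (α → ℂ)).rank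
      = ((M.rank : ℕ) : Cardinal) := by
    intro M
    have : ((φ M : (β → ℂ) →L[ℂ] (α → ℂ)) : (β → ℂ) →ₗ[ℂ] (α → ℂ)) = M.mulVecLin := by
      simp only [φ, LinearMap.comp_apply, LinearEquiv.coe_coe]
      rfl
    rw [this, LinearMap.rank, Matrix.rank, Module.finrank_eq_rank]
  have hopen := isOpen_setOfPred_nat_le_rank (𝕜 := ℂ) (E := β → ℂ) (F := α → ℂ) (k + 1)
  have hmem : φ T ∈ { f : (β → ℂ) →L[ℂ] (α → ℂ) |
      ((k + 1 : ℕ) : Cardinal) ≤ (f : (β → ℂ) →ₗ[ℂ] (α → ℂ)).rank } := by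
    show ((k + 1 : ℕ) : Cardinal) ≤ _
    rw [hr T]
    exact_mod_cast hc
  have ht : Tendsto (fun n => φ (F n)) atTop (𝓝 (φ T)) := (hφ.tendsto T).comp hF
  obtain ⟨n, hn⟩ := (ht.eventually (hopen.mem_nhds hmem)).exists
  have hn' : ((k + 1 : ℕ) : Cardinal) ≤ ((φ (F n) : (β → ℂ) →L[ℂ] (α → ℂ)) :
    (β → ℂ) →ₗ[ℂ] (α → ℂ)).rank := hn
  rw [hr] at hn'
  have hn'' : k + 1 ≤ (F n).rank := by exact_mod_cast hn'
  exact absurd (h n) (by omega)

/-- Rank bound for the block of a tensor product cut out by two lower sets. -/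
lemma rank_kron_le {m n : ℕ} (U : Matrix (Fin m) (Fin m) ℂ) (V : Matrix (Fin n) (Fin n) ℂ)
    (D D' : Finset (Fin m × Fin n)) (hD : IsLowerSet (D : Set (Fin m × Fin n)))
    (hD' : IsLowerSet (D' : Set (Fin m × Fin n))) :
    ((U ⊗ₖ V).submatrix (fun p : D => p.1) (fun p : D' => p.1)).rank ≤ (D ∩ D').card := by
  choose L R hL hR hLR using fun k : ℕ =>
    lu_dense m U (1 / ((k : ℝ) + 1)) (by positivity)
  choose L' R' hL' hR' hLR' using fun k : ℕ =>
    lu_dense n V (1 / ((k : ℝ) + 1)) (by positivity)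
  refine rank_le_of_tendsto
    (fun k => ((L k * R k) ⊗ₖ (L' k * R' k)).submatrix (fun p : D => p.1) (fun p : D' => p.1))
    _ ?_ _ (fun k => rank_tri _ _ _ _ (hL k) (hR k) (hL' k) (hR' k) D D' hD hD')
  have hU : ∀ i j, Tendsto (fun k => (L k * R k) i j) atTop (𝓝 (U i j)) := by
    intro i j
    rw [tendsto_iff_norm_sub_tendsto_zero]
    exact squeeze_zero (fun _ => norm_nonneg _) (fun k => (hLR k i j).le)
      tendsto_one_div_add_atTop_nhds_zero_nat
  have hV : ∀ i j, Tendsto (fun k => (L' k * R' k) i j) atTop (𝓝 (V i j)) := by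
    intro i j
    rw [tendsto_iff_norm_sub_tendsto_zero]
    exact squeeze_zero (fun _ => norm_nonneg _) (fun k => (hLR' k i j).le)
      tendsto_one_div_add_atTop_nhds_zero_nat
  refine tendsto_pi_nhds.2 fun p => tendsto_pi_nhds.2 fun q => ?_
  simp only [Matrix.submatrix_apply]
  exact (hU _ _).mul (hV _ _)

section Claim

variable {E : Type*} [NormedAddCommGroup E] [InnerProductSpace ℂ E] [FiniteDimensional ℂ E]
variable {ι κ : Type*} [Fintype ι] [DecidableEq ι] [Fintype κ]

/-- Bessel's inequality against two mutually orthogonal families. -/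
lemma bessel_two (b : OrthonormalBasis ι ℂ E) (D : Finset ι) {ν : Type*} [Fintype ν]
    (u : ν → E) (hu : Orthonormal ℂ u) (hD : ∀ a, ∀ i ∈ D, inner ℂ (b i) (u a) = 0) (v : E) :
    ∑ a, ‖inner ℂ (u a) v‖ ^ 2 + ∑ i ∈ D, ‖inner ℂ (b i) v‖ ^ 2 ≤ ‖v‖ ^ 2 := by
  classical
  set w : E := ∑ i ∈ Dᶜ, inner ℂ (b i) v • b i with hw
  have h1 : ∀ a, inner ℂ (u a) v = inner ℂ (u a) w := by
    intro a
    have hv : v = ∑ i, inner ℂ (b i) v • b i := (b.sum_repr' v).symm
    have h2 : inner ℂ (u a) v = ∑ i, inner ℂ (b i) v * inner ℂ (u a) (b i) := by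
      conv_lhs => rw [hv]
      rw [inner_sum]
      simp only [inner_smul_right]
    rw [h2, hw, inner_sum]
    simp only [inner_smul_right]
    symm
    apply Finset.sum_subset (Finset.subset_univ _)
    intro i _ hi
    have hi' : i ∈ D := by simpa using hi
    have h3 : inner ℂ (u a) (b i) = 0 := by
      rw [← inner_conj_symm, hD a i hi', map_zero]
    rw [h3, mul_zero]
  have h4 : ‖w‖ ^ 2 = ∑ i ∈ Dᶜ, ‖inner ℂ (b i) v‖ ^ 2 := by
    rw [← b.sum_sq_norm_inner_right w, ← Finset.sum_subset (Finset.subset_univ Dᶜ)]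
    · refine Finset.sum_congr rfl fun i hi => ?_
      rw [hw, b.orthonormal.inner_right_sum _ hi]
    · intro i _ hi
      have : inner ℂ (b i) w = 0 := by
        rw [hw, inner_sum]
        refine Finset.sum_eq_zero fun l hl => ?_
        rw [inner_smul_right, b.orthonormal.2 (by rintro rfl; exact hi hl), mul_zero]
      rw [this]
      simp
  have h7 : ‖v‖ ^ 2 = ∑ i, ‖inner ℂ (b i) v‖ ^ 2 := (b.sum_sq_norm_inner_right v).symm
  have h8 : ∑ a, ‖inner ℂ (u a) v‖ ^ 2 ≤ ‖w‖ ^ 2 := by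
    simp only [h1]
    exact hu.sum_inner_products_le w
  rw [h7, ← Finset.sum_compl_add_sum D]
  linarith

/-- Bessel's inequality inside a coordinate subspace. -/
lemma bessel_sub (b : OrthonormalBasis ι ℂ E) (D : Finset ι) {ν : Type*} [Fintype ν]
    (u : ν → E) (hu : Orthonormal ℂ u) (hD : ∀ a, ∀ i ∉ D, inner ℂ (b i) (u a) = 0) (v : E) :
    ∑ a, ‖inner ℂ (u a) v‖ ^ 2 ≤ ∑ i ∈ D, ‖inner ℂ (b i) v‖ ^ 2 := by
  classical
  have h := bessel_two b Dᶜ u hu (fun a i hi => hD a i (by simpa using hi)) v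
  rw [← b.sum_sq_norm_inner_right v, ← Finset.sum_add_sum_compl D] at h
  linarith

/-- Two coordinate subspaces in different orthonormal bases, tested on part of a third basis. -/
lemma claimA (b₀ b₁ : OrthonormalBasis ι ℂ E) (v : OrthonormalBasis κ ℂ E) (J : Finset κ)
    (D D' : Finset ι) (k : ℕ)
    (hk : (Matrix.of (fun (i : D) (l : D') => inner ℂ (b₀ i.1) (b₁ l.1))).rank ≤ k) :
    ∑ j ∈ J, (∑ i ∈ D, ‖inner ℂ (b₀ i) (v j)‖ ^ 2 + ∑ i ∈ D', ‖inner ℂ (b₁ i) (v j)‖ ^ 2 - 1)
      ≤ k := by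
  classical
  set G := (Matrix.of (fun (i : D) (l : D') => inner ℂ (b₀ i.1) (b₁ l.1))) with hG
  -- the subspace killed by the first family inside the second coordinate subspace
  let Φ : (D' → ℂ) →ₗ[ℂ] E := Fintype.linearCombination ℂ (fun l : D' => b₁ l.1)
  have hΦ : ∀ c, Φ c = ∑ l, c l • b₁ l.1 := fun c => by
    simp [Φ, Fintype.linearCombination_apply]
  have hinj : Function.Injective Φ := by
    have hli : LinearIndependent ℂ (fun l : D' => b₁ l.1) :=
      b₁.orthonormal.linearIndependent.comp _ Subtype.val_injective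
    exact linearIndependent_iff_injective_fintypeLinearCombination.1 hli
  let N : Submodule ℂ E := (LinearMap.ker G.mulVecLin).map Φ
  have hN : Module.finrank ℂ N = Module.finrank ℂ (LinearMap.ker G.mulVecLin) :=
    (Submodule.equivMapOfInjective Φ hinj (LinearMap.ker G.mulVecLin)).finrank_eq.symm
  have hrn : G.rank + Module.finrank ℂ (LinearMap.ker G.mulVecLin) = D'.card := by
    have := LinearMap.finrank_range_add_finrank_ker G.mulVecLin
    rw [Matrix.rank, this, Module.finrank_fintype_fun_eq_card, Fintype.card_coe]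
  have hN0 : ∀ x ∈ N, ∀ i ∈ D, inner ℂ (b₀ i) x = 0 := by
    rintro x ⟨c, hc, rfl⟩ i hi
    rw [hΦ, inner_sum]
    have h1 : G.mulVecLin c = 0 := hc
    have h2 := congrFun h1 ⟨i, hi⟩
    rw [Matrix.mulVecLin_apply, Matrix.mulVec, dotProduct] at h2
    simp only [inner_smul_right]
    rw [← show ((0 : D → ℂ) ⟨i, hi⟩) = 0 from rfl, ← h2]
    refine Finset.sum_congr rfl fun l _ => ?_
    rw [hG, Matrix.of_apply, mul_comm]
  have hN1 : ∀ x ∈ N, ∀ i ∉ D', inner ℂ (b₁ i) x = 0 := by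
    rintro x ⟨c, hc, rfl⟩ i hi
    rw [hΦ, inner_sum]
    refine Finset.sum_eq_zero fun l _ => ?_
    rw [inner_smul_right, b₁.orthonormal.2 (by rintro rfl; exact hi l.2), mul_zero]
  let u := stdOrthonormalBasis ℂ N
  let u' : Fin (Module.finrank ℂ N) → E := fun a => (u a : E)
  have hu' : Orthonormal ℂ u' := u.orthonormal.comp_linearIsometry N.subtypeₗᵢ
  have hB1 : ∀ j, ∑ a, ‖inner ℂ (u' a) (v j)‖ ^ 2 + ∑ i ∈ D, ‖inner ℂ (b₀ i) (v j)‖ ^ 2 ≤ 1 := by
    intro j
    have := bessel_two b₀ D u' hu' (fun a i hi => hN0 _ (u a).2 i hi) (v j)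
    rwa [v.orthonormal.1 j, one_pow] at this
  have hB2 : ∀ j, ∑ a, ‖inner ℂ (u' a) (v j)‖ ^ 2 ≤ ∑ i ∈ D', ‖inner ℂ (b₁ i) (v j)‖ ^ 2 :=
    fun j => bessel_sub b₁ D' u' hu' (fun a i hi => hN1 _ (u a).2 i hi) (v j)
  have hfull : ∀ x : E, ∑ j, ‖inner ℂ x (v j)‖ ^ 2 = ‖x‖ ^ 2 := fun x =>
    v.sum_sq_norm_inner_left x
  calc ∑ j ∈ J, (∑ i ∈ D, ‖inner ℂ (b₀ i) (v j)‖ ^ 2 + ∑ i ∈ D', ‖inner ℂ (b₁ i) (v j)‖ ^ 2 - 1)
      ≤ ∑ j ∈ J, (∑ i ∈ D', ‖inner ℂ (b₁ i) (v j)‖ ^ 2 - ∑ a, ‖inner ℂ (u' a) (v j)‖ ^ 2) :=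
        Finset.sum_le_sum fun j _ => by linarith [hB1 j]
    _ ≤ ∑ j, (∑ i ∈ D', ‖inner ℂ (b₁ i) (v j)‖ ^ 2 - ∑ a, ‖inner ℂ (u' a) (v j)‖ ^ 2) :=
        Finset.sum_le_sum_of_subset_of_nonneg (Finset.subset_univ _) fun j _ _ => by
          linarith [hB2 j]
    _ = ∑ i ∈ D', ∑ j, ‖inner ℂ (b₁ i) (v j)‖ ^ 2 - ∑ a, ∑ j, ‖inner ℂ (u' a) (v j)‖ ^ 2 := by
        rw [Finset.sum_sub_distrib, Finset.sum_comm]
        congr 1
        rw [Finset.sum_comm]
    _ = (D'.card : ℝ) - Module.finrank ℂ N := by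
        simp only [hfull]
        have e1 : ∀ i ∈ D', ‖b₁ i‖ ^ 2 = (1 : ℝ) := fun i _ => by rw [b₁.orthonormal.1 i, one_pow]
        have e2 : ∀ a ∈ (Finset.univ : Finset (Fin (Module.finrank ℂ N))),
            ‖u' a‖ ^ 2 = (1 : ℝ) := fun a _ => by rw [hu'.1 a, one_pow]
        rw [Finset.sum_congr rfl e1, Finset.sum_congr rfl e2]
        simp
    _ ≤ k := by
        rw [hN]
        have : (D'.card : ℝ) = G.rank + Module.finrank ℂ (LinearMap.ker G.mulVecLin) := by
          exact_mod_cast hrn.symm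
        rw [this]
        have hk' : (G.rank : ℝ) ≤ k := by exact_mod_cast hk
        linarith

end Claim

open MeasureTheory in
/-- The hinge inequality from its level-set version. -/
lemma hinge_scalar {ι : Type*} [Fintype ι] [DecidableEq ι] (x y q0 q1 : ι → ℝ) (τ t : ℝ)
    (hq0 : ∑ i, q0 i = t) (hq1 : ∑ i, q1 i = t)
    (h : ∀ s r : ℝ, ∑ i ∈ univ.filter (fun i => s < x i), q0 i +
      ∑ i ∈ univ.filter (fun i => r < y i), q1 i - t ≤
        ((univ.filter (fun i => s < x i ∧ r < y i)).card : ℝ)) :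
    ∑ i, x i * q0 i + ∑ i, y i * q1 i - τ * t ≤ ∑ i, max (x i + y i - τ) 0 := by
  set L : ℝ := ∑ i, |x i| + ∑ i, |y i| + |τ| with hL
  have hxL : ∀ i, |x i| ≤ L := fun i => by
    have h1 : |x i| ≤ ∑ i, |x i| := Finset.single_le_sum (f := fun i => |x i|)
      (fun _ _ => abs_nonneg _) (Finset.mem_univ i)
    have h2 : 0 ≤ ∑ i, |y i| := Finset.sum_nonneg fun _ _ => abs_nonneg _
    linarith [abs_nonneg τ]
  have hyL : ∀ i, |τ - y i| ≤ L := fun i => by
    have h1 : |y i| ≤ ∑ i, |y i| := Finset.single_le_sum (f := fun i => |y i|)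
      (fun _ _ => abs_nonneg _) (Finset.mem_univ i)
    have h2 : 0 ≤ ∑ i, |x i| := Finset.sum_nonneg fun _ _ => abs_nonneg _
    have h3 : |τ - y i| ≤ |τ| + |y i| := abs_sub _ _
    linarith
  have hL0 : 0 ≤ L := by positivity
  set μ : Measure ℝ := volume.restrict (Set.Ioc (-L) L) with hμ
  have : IsFiniteMeasure μ := by
    rw [hμ]; exact ⟨by simp⟩
  have hμt : μ.real Set.univ = 2 * L := by
    rw [hμ, measureReal_restrict_apply_univ, Real.volume_real_Ioc_of_le (by linarith)]; ring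
  have m1 : ∀ i, μ.real (Set.Iio (x i)) = x i + L := fun i => by
    have ha := abs_le.1 (hxL i)
    rw [hμ, measureReal_restrict_apply measurableSet_Iio]
    have : Set.Iio (x i) ∩ Set.Ioc (-L) L = Set.Ioo (-L) (x i) := by
      ext s
      simp only [Set.mem_inter_iff, Set.mem_Iio, Set.mem_Ioc, Set.mem_Ioo]
      constructor
      · rintro ⟨h1, h2, _⟩; exact ⟨h2, h1⟩
      · rintro ⟨h1, h2⟩; exact ⟨h2, h1, by linarith⟩
    rw [this, Real.volume_real_Ioo_of_le (by linarith)]
    ring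
  have m2 : ∀ i, μ.real (Set.Ioi (τ - y i)) = L - (τ - y i) := fun i => by
    have ha := abs_le.1 (hyL i)
    rw [hμ, measureReal_restrict_apply measurableSet_Ioi]
    have : Set.Ioi (τ - y i) ∩ Set.Ioc (-L) L = Set.Ioc (τ - y i) L := by
      ext s
      simp only [Set.mem_inter_iff, Set.mem_Ioi, Set.mem_Ioc]
      constructor
      · rintro ⟨h1, h2, h3⟩; exact ⟨h1, h3⟩
      · rintro ⟨h1, h2⟩; exact ⟨h1, by linarith, h2⟩
    rw [this, Real.volume_real_Ioc_of_le (by linarith)]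
  have m3 : ∀ i, μ.real (Set.Ioo (τ - y i) (x i)) = max (x i + y i - τ) 0 := fun i => by
    have ha := abs_le.1 (hyL i)
    have hb := abs_le.1 (hxL i)
    rw [hμ, measureReal_restrict_apply measurableSet_Ioo]
    have : Set.Ioo (τ - y i) (x i) ∩ Set.Ioc (-L) L = Set.Ioo (τ - y i) (x i) := by
      apply Set.inter_eq_left.2
      intro s hs
      exact ⟨by linarith [hs.1], by linarith [hs.2]⟩
    rw [this, Real.volume_real_Ioo]
    congr 1
    ring
  have hi : ∀ (S : Set ℝ) (c : ℝ), MeasurableSet S → Integrable (S.indicator fun _ => c) μ :=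
    fun S c hS => (integrable_const c).indicator hS
  have hI : ∀ (S : Set ℝ) (c : ℝ), MeasurableSet S →
      ∫ s, S.indicator (fun _ => c) s ∂μ = μ.real S * c := fun S c hS => by
    rw [integral_indicator_const c hS, smul_eq_mul]
  set F : ℝ → ℝ := fun s => ∑ i, (Set.Iio (x i)).indicator (fun _ => q0 i) s +
    ∑ i, (Set.Ioi (τ - y i)).indicator (fun _ => q1 i) s - t with hF
  set G : ℝ → ℝ := fun s => ∑ i, (Set.Ioo (τ - y i) (x i)).indicator (fun _ => (1 : ℝ)) s with hG
  have hi1 : Integrable (fun s => ∑ i, (Set.Iio (x i)).indicator (fun _ => q0 i) s) μ :=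
    integrable_finsetSum _ fun i _ => hi _ _ measurableSet_Iio
  have hi2 : Integrable (fun s => ∑ i, (Set.Ioi (τ - y i)).indicator (fun _ => q1 i) s) μ :=
    integrable_finsetSum _ fun i _ => hi _ _ measurableSet_Ioi
  have hi12 : Integrable (fun s => ∑ i, (Set.Iio (x i)).indicator (fun _ => q0 i) s +
      ∑ i, (Set.Ioi (τ - y i)).indicator (fun _ => q1 i) s) μ := hi1.add hi2
  have hi3 : Integrable G μ :=
    integrable_finsetSum _ fun i _ => hi _ _ measurableSet_Ioo
  have hFG : ∀ s, F s ≤ G s := by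
    intro s
    have h1 := h s (τ - s)
    rw [Finset.sum_filter, Finset.sum_filter, Finset.card_filter] at h1
    push_cast at h1
    simp only [hF, hG, Set.indicator_apply, Set.mem_Iio, Set.mem_Ioi, Set.mem_Ioo]
    refine le_trans (le_of_eq ?_) (h1.trans (le_of_eq ?_))
    · congr 2
      refine Finset.sum_congr rfl fun i _ => ?_
      refine if_congr ⟨fun h => by linarith, fun h => by linarith⟩ rfl rfl
    · refine Finset.sum_congr rfl fun i _ => ?_
      refine if_congr ⟨fun h => ⟨by linarith [h.2], h.1⟩, fun h => ⟨h.2, by linarith [h.1]⟩⟩ rfl rfl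
  have hint : ∫ s, F s ∂μ ≤ ∫ s, G s ∂μ :=
    integral_mono (hi12.sub (integrable_const t)) hi3 hFG
  have e1 : ∫ s, F s ∂μ = ∑ i, (x i + L) * q0 i + ∑ i, (L - (τ - y i)) * q1 i - 2 * L * t := by
    simp only [hF]
    rw [integral_sub hi12 (integrable_const t), integral_add hi1 hi2,
      integral_finsetSum _ (fun i _ => hi _ _ measurableSet_Iio),
      integral_finsetSum _ (fun i _ => hi _ _ measurableSet_Ioi), integral_const, hμt, smul_eq_mul]
    congr 2
    · exact Finset.sum_congr rfl fun i _ => by rw [hI _ _ measurableSet_Iio, m1]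
    · exact Finset.sum_congr rfl fun i _ => by rw [hI _ _ measurableSet_Ioi, m2]
  have e2 : ∫ s, G s ∂μ = ∑ i, max (x i + y i - τ) 0 := by
    simp only [hG]
    rw [integral_finsetSum _ (fun i _ => hi _ _ measurableSet_Ioo)]
    exact Finset.sum_congr rfl fun i _ => by rw [hI _ _ measurableSet_Ioo, m3, mul_one]
  rw [e1, e2] at hint
  have e3 : ∑ i, (x i + L) * q0 i = ∑ i, x i * q0 i + L * t := by
    rw [← hq0, Finset.mul_sum, ← Finset.sum_add_distrib]
    exact Finset.sum_congr rfl fun i _ => by ring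
  have e4 : ∑ i, (L - (τ - y i)) * q1 i = ∑ i, y i * q1 i + (L - τ) * t := by
    rw [← hq1, Finset.mul_sum, ← Finset.sum_add_distrib]
    exact Finset.sum_congr rfl fun i _ => by ring
  rw [e3, e4] at hint
  linarith

/-- Majorization of two vectors listed in non-increasing order. -/
def MajSorted {N : ℕ} (x y : Fin N → ℝ) : Prop :=
  (∀ t : ℕ, ∑ j ∈ univ.filter (fun j : Fin N => (j : ℕ) < t), x j ≤
    ∑ j ∈ univ.filter (fun j : Fin N => (j : ℕ) < t), y j) ∧ ∑ j, x j = ∑ j, y j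

lemma maj_of_hinge {N : ℕ} (x y : Fin N → ℝ) (hy : Antitone y)
    (hsum : ∑ j, x j = ∑ j, y j)
    (h : ∀ τ : ℝ, ∑ j, max (x j - τ) 0 ≤ ∑ j, max (y j - τ) 0) : MajSorted x y := by
  refine ⟨fun t => ?_, hsum⟩
  rcases Nat.eq_zero_or_pos t with rfl | ht
  · simp
  by_cases htN : N ≤ t
  · have : univ.filter (fun j : Fin N => (j : ℕ) < t) = univ :=
      Finset.filter_true_of_mem fun j _ => lt_of_lt_of_le j.2 htN
    rw [this, hsum]
  push Not at htN
  set k : Fin N := ⟨t - 1, by omega⟩ with hk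
  set τ : ℝ := y k with hτ
  set S := univ.filter (fun j : Fin N => (j : ℕ) < t) with hS
  have hyS : ∑ j, max (y j - τ) 0 = ∑ j ∈ S, (y j - τ) := by
    rw [hS, Finset.sum_filter]
    refine Finset.sum_congr rfl fun j _ => ?_
    by_cases hj : (j : ℕ) < t
    · rw [if_pos hj, max_eq_left]
      have : j ≤ k := by
        rw [Fin.le_def, hk]; show (j : ℕ) ≤ t - 1; omega
      linarith [hy this]
    · rw [if_neg hj, max_eq_right]
      have : k ≤ j := by
        rw [Fin.le_def, hk]; show t - 1 ≤ (j : ℕ); omega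
      linarith [hy this]
  have hxS : ∑ j ∈ S, (x j - τ) ≤ ∑ j, max (x j - τ) 0 :=
    calc ∑ j ∈ S, (x j - τ) ≤ ∑ j ∈ S, max (x j - τ) 0 :=
          Finset.sum_le_sum fun j _ => le_max_left _ _
      _ ≤ ∑ j, max (x j - τ) 0 :=
          Finset.sum_le_sum_of_subset_of_nonneg (Finset.subset_univ _)
            fun j _ _ => le_max_right _ _
  have := hxS.trans ((h τ).trans hyS.le)
  rw [Finset.sum_sub_distrib, Finset.sum_sub_distrib] at this
  linarith

/-- The eigenvalues of a Hermitian `k × k` matrix, with multiplicity, in non-increasing order. -/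
noncomputable def lam {k : ℕ} {X : Matrix (Fin k) (Fin k) ℂ} (hX : X.IsHermitian) : Fin k → ℝ :=
  fun i => hX.eigenvalues₀ (i.cast (Fintype.card_fin k).symm)

/-- `X↓`: the diagonal matrix with the eigenvalues of `X` in non-increasing order. -/
noncomputable def down {k : ℕ} {X : Matrix (Fin k) (Fin k) ℂ} (hX : X.IsHermitian) :
    Matrix (Fin k) (Fin k) ℂ :=
  Matrix.diagonal fun i => ((lam hX i : ℝ) : ℂ)

lemma lam_antitone {k : ℕ} {X : Matrix (Fin k) (Fin k) ℂ} (hX : X.IsHermitian) :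
    Antitone (lam hX) := fun _ _ hij =>
  hX.eigenvalues₀_antitone (Fin.le_def.2 (Fin.le_def.1 hij))

lemma lam_nonneg {k : ℕ} {X : Matrix (Fin k) (Fin k) ℂ} (hX : X.PosSemidef) (i : Fin k) :
    0 ≤ lam hX.1 i := by
  have h := hX.eigenvalues_nonneg
    ((Fintype.equivOfCardEq (Fintype.card_fin _)) (i.cast (Fintype.card_fin k).symm))
  unfold Matrix.IsHermitian.eigenvalues at h
  rw [Equiv.symm_apply_apply] at h
  exact h

lemma spectral_entries {k : ℕ} {X : Matrix (Fin k) (Fin k) ℂ} (hX : X.IsHermitian) :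
    ∃ e : OrthonormalBasis (Fin k) ℂ (EuclideanSpace ℂ (Fin k)),
      ∀ p q, X p q = ∑ i, ((lam hX i : ℝ) : ℂ) * (e i p * star (e i q)) := by
  classical
  let π : Fin k ≃ Fin k := (finCongr (Fintype.card_fin k).symm).trans
    (Fintype.equivOfCardEq (Fintype.card_fin _))
  have hπ : ∀ i, hX.eigenvalues (π i) = lam hX i := by
    intro i
    unfold Matrix.IsHermitian.eigenvalues
    simp only [π, Equiv.trans_apply, Equiv.symm_apply_apply]
    rfl
  refine ⟨hX.eigenvectorBasis.reindex π.symm, fun p q => ?_⟩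
  have h := congrFun (congrFun hX.spectral_theorem p) q
  rw [Unitary.conjStarAlgAut_apply, Matrix.mul_apply] at h
  rw [h, ← Equiv.sum_comp π]
  refine Finset.sum_congr rfl fun i _ => ?_
  rw [Matrix.mul_diagonal, Matrix.star_apply, Matrix.IsHermitian.eigenvectorUnitary_apply,
    Matrix.IsHermitian.eigenvectorUnitary_apply, Function.comp_apply, hπ,
    OrthonormalBasis.reindex_apply, Equiv.symm_symm]
  simp only [RCLike.star_def, Complex.coe_algebraMap]
  ring

lemma inner_tensor {m n : ℕ} (u u' : EuclideanSpace ℂ (Fin m)) (v v' : EuclideanSpace ℂ (Fin n))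
    (b b' : EuclideanSpace ℂ (Fin m × Fin n)) (hb : ∀ p, b p = u p.1 * v p.2)
    (hb' : ∀ p, b' p = u' p.1 * v' p.2) :
    inner ℂ b b' = inner ℂ u u' * inner ℂ v v' := by
  simp only [PiLp.inner_apply, RCLike.inner_apply, hb, hb']
  rw [Fintype.sum_prod_type, Finset.sum_mul_sum]
  refine Finset.sum_congr rfl fun i _ => Finset.sum_congr rfl fun j _ => ?_
  simp only [map_mul]
  ring

lemma exists_tensor {m n : ℕ} (e : OrthonormalBasis (Fin m) ℂ (EuclideanSpace ℂ (Fin m)))
    (f : OrthonormalBasis (Fin n) ℂ (EuclideanSpace ℂ (Fin n))) :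
    ∃ b : OrthonormalBasis (Fin m × Fin n) ℂ (EuclideanSpace ℂ (Fin m × Fin n)),
      ∀ i p, b i p = e i.1 p.1 * f i.2 p.2 := by
  classical
  let w : Fin m × Fin n → EuclideanSpace ℂ (Fin m × Fin n) := fun i =>
    WithLp.toLp 2 fun p => e i.1 p.1 * f i.2 p.2
  have hw : ∀ i p, w i p = e i.1 p.1 * f i.2 p.2 := fun i p => rfl
  have hon : Orthonormal ℂ w := by
    rw [orthonormal_iff_ite]
    intro i j
    rw [inner_tensor _ _ _ _ _ _ (hw i) (hw j), orthonormal_iff_ite.1 e.orthonormal,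
      orthonormal_iff_ite.1 f.orthonormal]
    by_cases h1 : i.1 = j.1 <;> by_cases h2 : i.2 = j.2 <;> simp [h1, h2, Prod.ext_iff]
  have hspan : ⊤ ≤ Submodule.span ℂ (Set.range w) := by
    rw [top_le_iff]
    apply hon.linearIndependent.span_eq_top_of_card_eq_finrank'
    rw [finrank_euclideanSpace]
  exact ⟨OrthonormalBasis.mk hon hspan, fun i p => by rw [OrthonormalBasis.coe_mk]⟩

/-- The quadratic form of a matrix given by its spectral expansion. -/
lemma quad {ι : Type*} [Fintype ι] [DecidableEq ι]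
    (b : OrthonormalBasis ι ℂ (EuclideanSpace ℂ ι)) (x : ι → ℝ) (X : Matrix ι ι ℂ)
    (hX : ∀ p q, X p q = ∑ i, ((x i : ℝ) : ℂ) * (b i p * star (b i q)))
    (v : EuclideanSpace ℂ ι) :
    (star (v : ι → ℂ)) ⬝ᵥ (X *ᵥ (v : ι → ℂ)) =
      ((∑ i, x i * ‖inner ℂ (b i) v‖ ^ 2 : ℝ) : ℂ) := by
  have h1 : ∀ i, inner ℂ (b i) v = ∑ q, star (b i q) * v q := by
    intro i
    simp only [PiLp.inner_apply, RCLike.inner_apply]
    exact Finset.sum_congr rfl fun q _ => by rw [mul_comm]; rfl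
  have h2 : ∀ i, ((‖inner ℂ (b i) v‖ ^ 2 : ℝ) : ℂ) =
      (∑ p, star (v p) * b i p) * (∑ q, star (b i q) * v q) := by
    intro i
    rw [← h1 i]
    have h3 : ∑ p, star (v p) * b i p = star (inner ℂ (b i) v) := by
      rw [h1 i, star_sum]
      exact Finset.sum_congr rfl fun p _ => by rw [star_mul', star_star, mul_comm]
    rw [h3, mul_comm]
    have := RCLike.mul_conj (K := ℂ) (inner ℂ (b i) v)
    push_cast
    exact this.symm
  push_cast
  simp only [dotProduct, Matrix.mulVec, Pi.star_apply, hX, Finset.mul_sum, Finset.sum_mul]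
  push_cast at h2
  rw [Finset.sum_congr rfl fun p _ => Finset.sum_comm, Finset.sum_comm]
  refine Finset.sum_congr rfl fun i _ => ?_
  rw [h2 i, Finset.sum_mul_sum, Finset.mul_sum]
  refine Finset.sum_congr rfl fun p _ => ?_
  rw [Finset.mul_sum]
  exact Finset.sum_congr rfl fun q _ => by ring

/-- The hinge inequality for a sum of two Hermitian matrices given by spectral expansions whose
eigenbases satisfy the rank condition on level sets. -/
lemma hinge_main {ι : Type*} [Fintype ι] [DecidableEq ι] (M : Matrix ι ι ℂ) (hM : M.IsHermitian)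
    (b₀ b₁ : OrthonormalBasis ι ℂ (EuclideanSpace ℂ ι)) (x y : ι → ℝ)
    (hMf : ∀ p q, M p q = ∑ i, ((x i : ℝ) : ℂ) * (b₀ i p * star (b₀ i q)) +
      ∑ i, ((y i : ℝ) : ℂ) * (b₁ i p * star (b₁ i q)))
    (hrank : ∀ s r : ℝ, (Matrix.of (fun (i : (univ.filter (fun i => s < x i) : Finset ι))
      (l : (univ.filter (fun i => r < y i) : Finset ι)) => inner ℂ (b₀ i.1) (b₁ l.1))).rank ≤
        (univ.filter (fun i => s < x i ∧ r < y i)).card) (τ : ℝ) :
    ∑ j, max (hM.eigenvalues j - τ) 0 ≤ ∑ i, max (x i + y i - τ) 0 := by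
  classical
  set v := hM.eigenvectorBasis with hv
  have hlam : ∀ j, hM.eigenvalues j = ∑ i, x i * ‖inner ℂ (b₀ i) (v j)‖ ^ 2 +
      ∑ i, y i * ‖inner ℂ (b₁ i) (v j)‖ ^ 2 := by
    intro j
    let X : Matrix ι ι ℂ := fun p q => ∑ i, ((x i : ℝ) : ℂ) * (b₀ i p * star (b₀ i q))
    let Y : Matrix ι ι ℂ := fun p q => ∑ i, ((y i : ℝ) : ℂ) * (b₁ i p * star (b₁ i q))
    have hXY : M = X + Y := by
      ext p q
      exact hMf p q
    have h1 := hM.eigenvalues_eq j
    have h2 : (star (v j : ι → ℂ)) ⬝ᵥ (M *ᵥ (v j : ι → ℂ)) =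
        (((∑ i, x i * ‖inner ℂ (b₀ i) (v j)‖ ^ 2 +
          ∑ i, y i * ‖inner ℂ (b₁ i) (v j)‖ ^ 2 : ℝ)) : ℂ) := by
      rw [hXY, Matrix.add_mulVec, dotProduct_add, quad b₀ x X (fun _ _ => rfl),
        quad b₁ y Y (fun _ _ => rfl)]
      push_cast
      rfl
    rw [h1, ← hv, h2]
    exact Complex.ofReal_re _
  set J := univ.filter (fun j => τ < hM.eigenvalues j) with hJ
  set q0 : ι → ℝ := fun i => ∑ j ∈ J, ‖inner ℂ (b₀ i) (v j)‖ ^ 2 with hq0
  set q1 : ι → ℝ := fun i => ∑ j ∈ J, ‖inner ℂ (b₁ i) (v j)‖ ^ 2 with hq1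
  have hs0 : ∑ i, q0 i = (J.card : ℝ) := by
    rw [hq0, Finset.sum_comm]
    rw [Finset.sum_congr rfl fun j _ => (b₀.sum_sq_norm_inner_right (v j))]
    rw [Finset.sum_congr rfl fun j _ => (show ‖v j‖ ^ 2 = (1 : ℝ) by
      rw [v.orthonormal.1 j, one_pow])]
    simp
  have hs1 : ∑ i, q1 i = (J.card : ℝ) := by
    rw [hq1, Finset.sum_comm]
    rw [Finset.sum_congr rfl fun j _ => (b₁.sum_sq_norm_inner_right (v j))]
    rw [Finset.sum_congr rfl fun j _ => (show ‖v j‖ ^ 2 = (1 : ℝ) by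
      rw [v.orthonormal.1 j, one_pow])]
    simp
  have hmain := hinge_scalar x y q0 q1 τ J.card hs0 hs1 (by
    intro s r
    have h := claimA b₀ b₁ v J _ _ _ (hrank s r)
    refine le_trans (le_of_eq ?_) h
    rw [Finset.sum_sub_distrib, Finset.sum_add_distrib]
    simp only [hq0, hq1]
    rw [Finset.sum_comm (s := J), Finset.sum_comm (s := J)]
    simp)
  refine le_trans (le_of_eq ?_) hmain
  have e1 : ∑ j, max (hM.eigenvalues j - τ) 0 = ∑ j ∈ J, (hM.eigenvalues j - τ) := by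
    rw [hJ, Finset.sum_filter]
    refine Finset.sum_congr rfl fun j _ => ?_
    split_ifs with h
    · exact max_eq_left (by linarith)
    · exact max_eq_right (by linarith)
  have e2 : ∑ i, x i * q0 i = ∑ j ∈ J, ∑ i, x i * ‖inner ℂ (b₀ i) (v j)‖ ^ 2 := by
    rw [Finset.sum_comm]
    exact Finset.sum_congr rfl fun i _ => by rw [hq0, Finset.mul_sum]
  have e3 : ∑ i, y i * q1 i = ∑ j ∈ J, ∑ i, y i * ‖inner ℂ (b₁ i) (v j)‖ ^ 2 := by
    rw [Finset.sum_comm]
    exact Finset.sum_congr rfl fun i _ => by rw [hq1, Finset.mul_sum]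
  rw [e1, e2, e3, Finset.sum_sub_distrib, Finset.sum_congr rfl fun j _ => hlam j,
    Finset.sum_add_distrib]
  simp
  ring

/-- Level sets of an array `a i * b j` with both factors non-increasing and nonnegative. -/
lemma lower_level {m n : ℕ} (a : Fin m → ℝ) (b : Fin n → ℝ) (ha : Antitone a) (hb : Antitone b)
    (ha0 : ∀ i, 0 ≤ a i) (hb0 : ∀ j, 0 ≤ b j) (s : ℝ) :
    IsLowerSet ((univ.filter (fun i : Fin m × Fin n => s < a i.1 * b i.2) : Finset _) :
      Set (Fin m × Fin n)) := by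
  intro p q hqp hp
  simp only [Finset.coe_filter, Finset.mem_univ, true_and, Set.mem_ofPred_eq] at hp ⊢
  exact lt_of_lt_of_le hp (mul_le_mul (ha hqp.1) (hb hqp.2) (hb0 _) (ha0 _))

/-- Sums over the eigenvalues in the two index conventions. -/
lemma sum_eig₀ {ι : Type*} [Fintype ι] [DecidableEq ι] {M : Matrix ι ι ℂ} (hM : M.IsHermitian)
    (g : ℝ → ℝ) : ∑ j, g (hM.eigenvalues₀ j) = ∑ i, g (hM.eigenvalues i) := by
  unfold Matrix.IsHermitian.eigenvalues
  exact (Equiv.sum_comp (Fintype.equivOfCardEq (Fintype.card_fin (Fintype.card ι))).symm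
    (fun j => g (hM.eigenvalues₀ j))).symm

/-- Sums over the eigenvalues of a diagonal matrix. -/
lemma sum_eig_diag {ι : Type*} [Fintype ι] [DecidableEq ι] {M : Matrix ι ι ℂ} (hM : M.IsHermitian)
    (z : ι → ℝ) (hz : M = Matrix.diagonal fun i => ((z i : ℝ) : ℂ)) (g : ℝ → ℝ) :
    ∑ i, g (hM.eigenvalues i) = ∑ i, g (z i) := by
  have h1 := hM.roots_charpoly_eq_eigenvalues
  have h2 : M.charpoly.roots = Multiset.map (fun i => ((z i : ℝ) : ℂ)) Finset.univ.val := by
    rw [hz, Matrix.charpoly_diagonal, Polynomial.roots_prod]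
    · simp
    · exact Finset.prod_ne_zero_iff.2 fun i _ => Polynomial.X_sub_C_ne_zero _
  have h3 : Multiset.map hM.eigenvalues Finset.univ.val = Multiset.map z Finset.univ.val := by
    have h4 : Multiset.map (fun r : ℝ => (r : ℂ)) (Multiset.map hM.eigenvalues Finset.univ.val) =
        Multiset.map (fun r : ℝ => (r : ℂ)) (Multiset.map z Finset.univ.val) := by
      rw [Multiset.map_map, Multiset.map_map]
      exact (h1.symm.trans h2)
    exact Multiset.map_injective Complex.ofReal_injective h4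
  have h5 := congrArg (fun s : Multiset ℝ => (s.map g).sum) h3
  simp only [Multiset.map_map] at h5
  exact h5

/-- The sum of the eigenvalues of a Hermitian matrix is its trace. -/
lemma sum_lam {k : ℕ} {X : Matrix (Fin k) (Fin k) ℂ} (hX : X.IsHermitian) :
    X.trace = ((∑ i, lam hX i : ℝ) : ℂ) := by
  rw [hX.trace_eq_sum_eigenvalues]
  have h1 := sum_eig₀ hX (fun r => r)
  have h2 : ∑ i, lam hX i = ∑ j, hX.eigenvalues₀ j := by
    unfold lam
    exact Equiv.sum_comp (finCongr (Fintype.card_fin k).symm) (fun j => hX.eigenvalues₀ j)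
  rw [h2, h1]
  push_cast
  rfl

/-- The answer to the question. -/
theorem result (m n : ℕ) (A₀ A₁ : Matrix (Fin m) (Fin m) ℂ) (B₀ B₁ : Matrix (Fin n) (Fin n) ℂ)
    (hA₀ : A₀.PosSemidef) (hA₁ : A₁.PosSemidef) (hB₀ : B₀.PosSemidef) (hB₁ : B₁.PosSemidef) :
    ∃ (hM : (A₀ ⊗ₖ B₀ + A₁ ⊗ₖ B₁).IsHermitian)
      (hM' : (down hA₀.1 ⊗ₖ down hB₀.1 + down hA₁.1 ⊗ₖ down hB₁.1).IsHermitian),
      MajSorted hM.eigenvalues₀ hM'.eigenvalues₀ := by
  classical
  set x : Fin m × Fin n → ℝ := fun i => lam hA₀.1 i.1 * lam hB₀.1 i.2 with hx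
  set y : Fin m × Fin n → ℝ := fun i => lam hA₁.1 i.1 * lam hB₁.1 i.2 with hy
  have hdiag : down hA₀.1 ⊗ₖ down hB₀.1 + down hA₁.1 ⊗ₖ down hB₁.1 =
      Matrix.diagonal fun i => (((x i + y i : ℝ)) : ℂ) := by
    unfold down
    rw [Matrix.diagonal_kronecker_diagonal, Matrix.diagonal_kronecker_diagonal,
      Matrix.diagonal_add]
    congr 1
    funext i
    simp only [hx, hy]
    push_cast
    rfl
  have hM : (A₀ ⊗ₖ B₀ + A₁ ⊗ₖ B₁).IsHermitian := by
    unfold Matrix.IsHermitian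
    rw [Matrix.conjTranspose_add, Matrix.conjTranspose_kronecker, Matrix.conjTranspose_kronecker,
      hA₀.1, hA₁.1, hB₀.1, hB₁.1]
  have hM' : (down hA₀.1 ⊗ₖ down hB₀.1 + down hA₁.1 ⊗ₖ down hB₁.1).IsHermitian := by
    rw [hdiag]
    unfold Matrix.IsHermitian
    rw [Matrix.diagonal_conjTranspose]
    congr 1
    funext i
    exact Complex.conj_ofReal _
  refine ⟨hM, hM', maj_of_hinge _ _ hM'.eigenvalues₀_antitone ?_ ?_⟩
  · -- traces
    have h1 : ((∑ j, hM.eigenvalues₀ j : ℝ) : ℂ) = ((∑ j, hM'.eigenvalues₀ j : ℝ) : ℂ) := by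
      rw [sum_eig₀ hM (fun r => r), sum_eig₀ hM' (fun r => r), sum_eig_diag hM' _ hdiag
        (fun r => r)]
      have h2 := hM.trace_eq_sum_eigenvalues
      have h3 : ((∑ i, hM.eigenvalues i : ℝ) : ℂ) = (A₀ ⊗ₖ B₀ + A₁ ⊗ₖ B₁).trace := by
        rw [h2]; push_cast; rfl
      rw [h3, Matrix.trace_add, Matrix.trace_kronecker, Matrix.trace_kronecker, sum_lam hA₀.1,
        sum_lam hB₀.1, sum_lam hA₁.1, sum_lam hB₁.1]
      rw [Finset.sum_add_distrib]
      simp only [hx, hy]
      rw [Fintype.sum_prod_type, Fintype.sum_prod_type, ← Finset.sum_mul_sum,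
        ← Finset.sum_mul_sum]
      push_cast
      rfl
    exact_mod_cast h1
  · intro τ
    rw [sum_eig₀ hM (fun r => max (r - τ) 0), sum_eig₀ hM' (fun r => max (r - τ) 0),
      sum_eig_diag hM' _ hdiag (fun r => max (r - τ) 0)]
    obtain ⟨e₀, he₀⟩ := spectral_entries hA₀.1
    obtain ⟨e₁, he₁⟩ := spectral_entries hA₁.1
    obtain ⟨f₀, hf₀⟩ := spectral_entries hB₀.1
    obtain ⟨f₁, hf₁⟩ := spectral_entries hB₁.1
    obtain ⟨b₀, hb₀⟩ := exists_tensor e₀ f₀
    obtain ⟨b₁, hb₁⟩ := exists_tensor e₁ f₁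
    refine hinge_main _ hM b₀ b₁ x y ?_ ?_ τ
    · intro p q
      rw [Matrix.add_apply, Matrix.kronecker_apply, Matrix.kronecker_apply, he₀, he₁, hf₀, hf₁]
      congr 1
      · rw [Finset.sum_mul_sum, Fintype.sum_prod_type]
        refine Finset.sum_congr rfl fun i _ => Finset.sum_congr rfl fun j _ => ?_
        rw [hb₀, hb₀, star_mul']
        simp only [hx]
        push_cast
        ring
      · rw [Finset.sum_mul_sum, Fintype.sum_prod_type]
        refine Finset.sum_congr rfl fun i _ => Finset.sum_congr rfl fun j _ => ?_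
        rw [hb₁, hb₁, star_mul']
        simp only [hy]
        push_cast
        ring
    · intro s r
      have hD := lower_level _ _ (lam_antitone hA₀.1) (lam_antitone hB₀.1) (lam_nonneg hA₀)
        (lam_nonneg hB₀) s
      have hD' := lower_level _ _ (lam_antitone hA₁.1) (lam_antitone hB₁.1) (lam_nonneg hA₁)
        (lam_nonneg hB₁) r
      have h := rank_kron_le (Matrix.of fun i k => inner ℂ (e₀ i) (e₁ k))
        (Matrix.of fun i k => inner ℂ (f₀ i) (f₁ k)) _ _ hD hD'
      rw [← Finset.filter_and] at h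
      convert h using 2
      ext i l
      rw [Matrix.of_apply, Matrix.submatrix_apply, Matrix.kronecker_apply, Matrix.of_apply,
        Matrix.of_apply]
      exact inner_tensor _ _ _ _ _ _ (hb₀ i.1) (hb₁ l.1)


end Pool.Agent.Results.MP_5fe7ea_an.SeparableKyFan
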